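import Pool.Agent.H53.Per.Iface

set_option autoImplicit false

/-! MP_2e6055, module F5: paths from the outer region of the fresh box to outer faces of both colours. -/

namespace Pool.Agent.H53.Per

open Pool.Agent.H7.UC Pool.Agent.H74.Tri Pool.Agent.H75.Perc Pool.Agent.H75.Lv

/-- a face of a box next to a face off the box is not in the next smaller box -/
theorem bx_layer {v f g : Fc} {R : ℤ} (h : adjF f g) (hg : g ∉ Bx v R) : f ∉ Bx v (R - 1) := by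
  intro hf
  apply hg
  rw [mem_Bx, abs_le, abs_le] at hf ⊢
  rw [adjF_iff] at h
  omega

/-- From `TB`: a connected set `O` which contains the boundary layer of the fresh box `Bx v R` off the
ball `B` is joined, by faces of `U` off the box and off the ball, to a face next to an outer face of any
given colour. -/
theorem pth {U B : Finset Fc} {ω : Fc → Bool} {v o : Fc} {R : ℤ} {O : Set Fc}
    (htb : TB U ω v B) (hbox : Bx v R ⊆ U) (hR : 0 ≤ R) (hv : v ∉ B)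
    (hO : ∀ f, f ∈ Bx v R → f ∉ Bx v (R - 1) → f ∉ B → f ∈ O)
    (hOc : ∀ f ∈ O, ∀ g ∈ O, Jn O f g) (ho : o ∈ O) (c : Bool) :
    ∃ f g, f ∈ O ∪ {a | a ∈ U ∧ a ∉ Bx v R ∧ a ∉ B} ∧
      Jn (O ∪ {a | a ∈ U ∧ a ∉ Bx v R ∧ a ∉ B}) o f ∧ g ∉ U ∧ adjF f g ∧ ω g = c := by
  obtain ⟨f, g, hvf, hgU, hfg, hgc⟩ := htb c
  have hvb : v ∈ Bx v R := by
    rw [mem_Bx]
    simp [hR]
  have hvS : v ∈ {a | a ∈ U ∧ a ∉ B} := ⟨hbox hvb, hv⟩
  have hfS : f ∈ {a | a ∈ U ∧ a ∉ B} := hvf.mem hvS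
  by_cases hfb : f ∈ Bx v R
  · have hfO : f ∈ O := hO f hfb (bx_layer hfg fun h => hgU (hbox h)) hfS.2
    exact ⟨f, g, Or.inl hfO, (hOc o ho f hfO).mono Set.subset_union_left, hgU, hfg, hgc⟩
  · have hfv : Jn {a | a ∈ U ∧ a ∉ B} f v := hvf.symm hvS
    obtain ⟨a, b, h1, h2, h3, h4, h5, -⟩ :=
      Jn.exit (A := {a | a ∉ Bx v R}) hfv hfb (by simpa using hvb)
    have hb : b ∈ Bx v R := by
      by_contra hb
      exact h4 hb
    have hbO : b ∈ O := hO b hb (bx_layer (adjF_symm h5) h2) h3.2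
    have hfA : f ∈ {a | a ∈ U ∧ a ∉ B} ∩ {a | a ∉ Bx v R} := ⟨hfS, hfb⟩
    have haA : a ∈ {a | a ∈ U ∧ a ∉ B} ∩ {a | a ∉ Bx v R} := h1.mem hfA
    have haf := h1.symm hfA
    have hsub : ({a | a ∈ U ∧ a ∉ B} ∩ {a | a ∉ Bx v R} : Set Fc) ⊆
        O ∪ {a | a ∈ U ∧ a ∉ Bx v R ∧ a ∉ B} := fun z hz => Or.inr ⟨hz.1.1, hz.2, hz.1.2⟩
    refine ⟨f, g, hsub hfA, ?_, hgU, hfg, hgc⟩
    exact ((((hOc o ho b hbO).mono Set.subset_union_left).step (hsub haA) (adjF_symm h5))).trans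
      (haf.mono hsub)

end Pool.Agent.H53.Per
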