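import Pool.Agent.H53.Per.Tmp
import Pool.Agent.H50.Per.Pth

set_option autoImplicit false

/-! MP_2e6055, module F5: PTH7 (closed statement of `H53/Per/Tmp.lean`) from OUT7. -/

namespace Pool.Agent.H53.Per

open Pool.Agent.H7.UC Pool.Agent.H74.Tri Pool.Agent.H75.Perc Pool.Agent.H75.Lv Pool.Agent.H55.Lane

/-- a face of the box off the next smaller box is on the boundary layer -/
theorem bx_bd {C : Ch} {v f : Fc} {R : ℤ} (h1 : f ∈ Bx v R) (h2 : f ∉ Bx v (R - 1)) :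
    |C.X f - C.X v| = R ∨ |C.Y f - C.Y v| = R := by
  rw [C.mem_Bx] at h1 h2
  obtain ⟨a, b⟩ := h1
  by_contra hcon
  push Not at hcon
  exact h2 ⟨by omega, by omega⟩

/-- boundary layer faces of the box off the ball are in the outer region -/
theorem layer_out {C : Ch} {U : Finset Fc} {ω : Fc → Bool} {p : Pos} {v z0 : Fc}
    {R t b k e y : ℤ} (hS : Sit7 C U ω p v z0 R t b k e y) {f : Fc} (hf : f ∈ Bx v R)
    (hf1 : f ∉ Bx v (R - 1)) (hf2 : f ∉ Bx (ph p) (40 * t)) :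
    f ∈ Out7 C p v z0 R t b k e y := by
  have hbd := bx_bd (C := C) hf hf1
  have hz : C.X z0 = 0 ∧ C.Y z0 = 0 := by rw [← hS.c]; exact ⟨C.X_c, C.Y_c⟩
  obtain ⟨t2, tk, ke, eb, bR, hv1, hv2, hx1, hx2, hx0, hy0, hy1, hy2⟩ := hS.num
  have hf' := (C.mem_Bx f v R).1 hf
  rw [C.mem_Bx] at hf2
  simp only [abs_le] at hv1 hv2 hx2 hy1 hf'
  have hy2' : y - C.Y v < R - t ∧ -(y - C.Y v) < R - t := by
    constructor
    · have := le_abs_self (y - C.Y v); omega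
    · have := neg_abs_le (y - C.Y v); omega
  have hbd' : C.X f - C.X v = R ∨ C.X f - C.X v = -R ∨ C.Y f - C.Y v = R ∨ C.Y f - C.Y v = -R := by
    rcases hbd with h | h
    · rcases abs_choice (C.X f - C.X v) with h' | h' <;> rw [h'] at h <;> omega
    · rcases abs_choice (C.Y f - C.Y v) with h' | h' <;> rw [h'] at h <;> omega
  have hf2' : ¬ ((-(40 * t) ≤ C.X f - C.X (ph p) ∧ C.X f - C.X (ph p) ≤ 40 * t) ∧
      (-(40 * t) ≤ C.Y f - C.Y (ph p) ∧ C.Y f - C.Y (ph p) ≤ 40 * t)) := by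
    rwa [abs_le, abs_le] at hf2
  refine ⟨hf, ?_, ?_, ?_⟩
  · rw [C.mem_Bx]; exact hf2
  · rw [C.mem_Bx, hz.1, hz.2, abs_le, abs_le]
    omega
  · intro s hs
    unfold K7 at hs
    simp only [List.mem_cons, List.mem_nil_iff, or_false] at hs
    unfold InC Sp.In
    rcases hs with rfl | rfl | rfl | rfl | rfl | rfl | rfl <;> simp only [] <;> omega

theorem pth7 (hO7 : OUT7) : PTH7 := by
  intro C U ω p v z0 R t b k e y hS O hO hcl c
  obtain ⟨f, x, hvf, hxU, hfx, hxc⟩ := hS.ent.tb c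
  obtain ⟨-, -, hc3, -⟩ := hO7 C U ω p v z0 R t b k e y hS
  have hR : 0 ≤ R := by
    have h1 := hS.num.bR
    have h2 := hS.num.eb
    have h3 := hS.num.ke
    have h4 := hS.num.tk
    have h5 := hS.num.t2
    omega
  have hvb : v ∈ Bx v R := by
    rw [Pool.Agent.H75.Lv.mem_Bx]
    simp [hR]
  have hvB : v ∉ Bx (ph p) (40 * t) := by
    rw [C.mem_Bx, abs_le, abs_le]
    have h1 := hS.ent.x
    have h2 := hS.ent.tR
    have h3 := hS.ent.t1
    omega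
  have hvS : v ∈ {a | a ∈ U ∧ a ∉ Bx (ph p) (40 * t)} := ⟨hS.ent.box hvb, hvB⟩
  have hfS : f ∈ {a | a ∈ U ∧ a ∉ Bx (ph p) (40 * t)} := hvf.mem hvS
  have hM : ∀ a, a ∈ M7 C t b k → a ∈ Bx v R := by
    rintro a ⟨h1, h2, h3⟩
    obtain ⟨t2, tk, ke, eb, bR, hv1, hv2, -⟩ := hS.num
    rw [C.mem_Bx, abs_le, abs_le]
    rw [abs_le] at hv1 hv2
    omega
  by_cases hfb : f ∈ Bx v R
  · have hl : f ∉ Bx v (R - 1) := bx_layer hfx fun h => hxU (hS.ent.box h)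
    have h1 := hc3 f (layer_out hS hfb hl hfS.2) (bx_bd hfb hl)
    exact ⟨f, x, h1.mono (Set.sdiff_subset_sdiff_left hO), hxU, hfx, hxc⟩
  · have hfv := hvf.symm hvS
    obtain ⟨a, b1, h1, h2, h3, h4, h5, -⟩ :=
      Jn.exit (A := {a | a ∉ Bx v R}) hfv hfb (by simpa using hvb)
    have hb : b1 ∈ Bx v R := by
      by_contra hb
      exact h4 hb
    have hl : b1 ∉ Bx v (R - 1) := bx_layer (adjF_symm h5) h2
    have hbO := layer_out hS hb hl h3.2
    have e1 := (hc3 b1 hbO (bx_bd hb hl)).mono (Set.sdiff_subset_sdiff_left hO)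
    have hfA : f ∈ {a | a ∈ U ∧ a ∉ Bx (ph p) (40 * t)} ∩ {a | a ∉ Bx v R} := ⟨hfS, hfb⟩
    have haA : a ∈ {a | a ∈ U ∧ a ∉ Bx (ph p) (40 * t)} ∩ {a | a ∉ Bx v R} := h1.mem hfA
    have haf := h1.symm hfA
    have haO : a ∈ O := hcl b1 (hO hbO) a haA.1.1 (adjF_symm h5) haA.1.2 haA.2
    have e2 := e1.step (h := a) ⟨haO, fun h => haA.2 (hM a h)⟩ (adjF_symm h5)
    -- along the rest of the path
    have key : ∀ w, Jn ({a | a ∈ U ∧ a ∉ Bx (ph p) (40 * t)} ∩ {a | a ∉ Bx v R}) a w →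
        w ∈ O ∧ Jn (O \ M7 C t b k) a w := by
      intro w hw
      induction hw with
      | refl => exact ⟨haO, Jn.refl _⟩
      | @tail w' w _ hw ih =>
        have hwO : w ∈ O := hcl w' ih.1 w hw.1.1.1 hw.2 hw.1.1.2 hw.1.2
        exact ⟨hwO, ih.2.step ⟨hwO, fun h => hw.1.2 (hM w h)⟩ hw.2⟩
    exact ⟨f, x, e2.trans (key f haf).2, hxU, hfx, hxc⟩

end Pool.Agent.H53.Per
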