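import Pool.Agent.H53.Per.Iface

set_option autoImplicit false

/-! MP_2e6055, module F5: TRI and REVC (closed statements of `H53/Per/Iface.lean`). -/

namespace Pool.Agent.H53.Per

open Pool.Agent.H7.UC Pool.Agent.H74.Tri Pool.Agent.H75.Perc Pool.Agent.H75.Lv

theorem nbr_adj (f : Fc) (m l : Fin 6) (h : adjF (nbr f m) (nbr f l)) : l = m + 1 ∨ m = l + 1 := by
  rw [adjF_iff] at h
  obtain ⟨i, j⟩ := f
  fin_cases m <;> fin_cases l <;> first
    | exact Or.inl rfl
    | exact Or.inr rfl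
    | (exfalso; simp only [nbr] at h; omega)

theorem tri : TRI := by
  rintro f g h ⟨hfg, hfh, hgh⟩
  obtain ⟨m, hm⟩ := adjF_nbr hfg
  obtain ⟨l, hl⟩ := adjF_nbr hfh
  rw [hm, hl] at hgh
  rcases nbr_adj f m l hgh with e | e
  · obtain ⟨h1, h2, h3⟩ := vtx_fc f m
    refine ⟨(vtx f m, kx m), h1, Or.inl ⟨?_, ?_⟩⟩
    · rw [hm]; exact h2
    · rw [hl, e]; exact h3
  · obtain ⟨h1, h2, h3⟩ := vtx_fc f l
    refine ⟨(vtx f l, kx l), h1, Or.inr ⟨?_, ?_⟩⟩
    · rw [hl]; exact h2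
    · rw [hm, e]; exact h3

theorem stp_faces (ω : Fc → Bool) (q : Pos) {f : Fc} (h : f = pl (stp ω q) ∨ f = pr (stp ω q)) :
    f = ph q ∨ f = pl q ∨ f = pr q := by
  cases hq : ω (ph q)
  · obtain ⟨e1, e2⟩ := stp_white hq
    rw [e1, e2] at h
    rcases h with h | h
    · exact Or.inr (Or.inl h)
    · exact Or.inl h
  · obtain ⟨e1, e2⟩ := stp_black hq
    rw [e1, e2] at h
    rcases h with h | h
    · exact Or.inl h
    · exact Or.inr (Or.inr h)

theorem ph_next (ω : Fc → Bool) (q : Pos) : ph q = pl (stp ω q) ∨ ph q = pr (stp ω q) := by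
  cases hq : ω (ph q)
  · exact Or.inr (stp_white hq).2.symm
  · exact Or.inl (stp_black hq).1.symm

/-- every revealed face of `U` is joined to the face ahead of the tip by revealed faces of `U` -/
theorem revc_aux {U : Finset Fc} {ω : Fc → Bool} {p : Pos} {i : ℕ} (hp : IsTip U ω p)
    (hI : Ins U ω p i) (k : ℕ) (hk : k + 1 ≤ i) : ∀ f ∈ U,
    (f = pl (orb ω p (k + 1)) ∨ f = pr (orb ω p (k + 1))) →
      Jn {a | a ∈ U ∧ a ∈ Rev ω p i} (ph p) f := by
  induction k with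
  | zero =>
    intro f hf h
    rw [orb_succ, orb_zero] at h
    rcases stp_faces ω p h with h | h | h
    · rw [h]; exact Jn.refl _
    · exact absurd (h ▸ hf) hp.2.1
    · exact absurd (h ▸ hf) hp.2.2.1
  | succ k ih =>
    intro f hf h
    have ih' := ih (by omega)
    have hR : f ∈ Rev ω p i := ⟨k + 1 + 1, hk, h⟩
    rw [orb_succ] at h
    rcases stp_faces ω _ h with h | h | h
    · rcases (inE_pe U _).1 (hI (k + 1) (by omega) (by omega)) with hg | hg
      · refine (ih' _ hg (Or.inl rfl)).step ⟨hf, hR⟩ ?_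
        rw [h]
        exact adjF_symm (adj_hl _)
      · refine (ih' _ hg (Or.inr rfl)).step ⟨hf, hR⟩ ?_
        rw [h]
        exact adjF_symm (adj_hr _)
    · exact ih' f hf (Or.inl h)
    · exact ih' f hf (Or.inr h)

theorem revc : REVC := by
  intro U ω p i hp hI f g hf hg hfR hgR
  have key : ∀ f ∈ U, f ∈ Rev ω p i →
      1 ≤ i ∧ Jn {a | a ∈ U ∧ a ∈ Rev ω p i} (ph p) f := by
    rintro f hf ⟨k, hk, h⟩
    rcases k with _ | k
    · exfalso
      rw [orb_zero] at h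
      rcases h with h | h
      · exact hp.2.1 (h ▸ hf)
      · exact hp.2.2.1 (h ▸ hf)
    · exact ⟨by omega, revc_aux hp hI k hk f hf h⟩
  obtain ⟨hi, h1⟩ := key f hf hfR
  obtain ⟨-, h2⟩ := key g hg hgR
  have hph : ph p ∈ {a | a ∈ U ∧ a ∈ Rev ω p i} := by
    refine ⟨hp.1, 1, hi, ?_⟩
    have := ph_next ω p
    rwa [← orb_zero ω p, ← orb_succ] at this
  exact (h1.symm hph).trans h2

end Pool.Agent.H53.Per
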